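import Mathlib
import Pool.Agent.Results.MP_3c540c_co.OddMultiples

/-!
# Universal multipliers for faithful circuit covers are even (MP_48d738_co)

For every odd `k` the Petersen graph has an admissible eulerian weight with all values divisible
by `k` and without a faithful circuit cover.
-/

set_option autoImplicit false

open Finset Pool.Agent.Results.MP_3c540c_co.OddMultiples

namespace Pool.Agent.Results.MP_48d738_co.UniversalIsEven

/-- no edge cut consists of a single edge -/
def Bridgeless {V E : Type} [Fintype E] (G : MGraph V E) : Prop :=
  ∀ X : Set V, (cut G X).card ≠ 1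

/-- `k` is a universal multiplier: for every finite bridgeless graph, every admissible eulerian
weight with all values divisible by `k` has a faithful circuit cover -/
def Universal (k : ℕ) : Prop :=
  0 < k ∧ ∀ (V E : Type) [Fintype V] [Fintype E] (G : MGraph V E), Bridgeless G → PropP k G

/-- the Petersen graph -/
def petersen : MGraph (Fin 10) (Fin 15) where
  ends j := s(pA j, pB j)
  loopless j := by
    rw [Sym2.mk_isDiag_iff]
    exact pA_ne_pB j

/-- the Petersen graph is a subdivision of itself -/
def petSub : PetSub petersen where
  br := id
  len _ := 1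
  x j i := if i = 0 then pA j else pB j
  f j _ := j
  br_inj := Function.injective_id
  len_pos _ := one_pos
  x_zero _ := rfl
  x_len _ := rfl
  ends_f := by
    intro j i hi
    have h : i = 0 := by omega
    subst h
    rfl
  f_inj := by
    intro j i j' i' hi hi' h
    exact ⟨h, by omega⟩
  int_inj := by
    intro j i j' i' h1 h2
    omega
  int_br := by
    intro j i b h1 h2
    omega

theorem bridgeless_petersen : Bridgeless petersen := by
  classical
  intro X h
  rw [Finset.card_eq_one] at h
  obtain ⟨e, he⟩ := h
  have h1 := admissible_wt petSub 1 X e (by rw [he]; exact Finset.mem_singleton_self e)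
  rw [he] at h1
  have h2 : wt petSub 1 e = 1 * w0 e := wt_f petSub 1 e 0 one_pos
  rw [h2] at h1
  have h3 : ∀ j : Fin 15, 0 < w0 j := by decide
  have h4 := h3 e
  simp at h1
  omega

/-- Every universal multiplier is even; moreover the Petersen graph is a counterexample for every
odd `k`. -/
theorem result : (∀ k : ℕ, Universal k → Even k) ∧
    (Bridgeless petersen ∧ ∀ k : ℕ, Odd k → ¬ PropP k petersen) := by
  have h : ∀ k : ℕ, Odd k → ¬ PropP k petersen := fun k hk =>
    Pool.Agent.Results.MP_3c540c_co.OddMultiples.result (Fin 10) (Fin 15) petersen ⟨petSub⟩ k hk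
  refine ⟨?_, bridgeless_petersen, h⟩
  rintro k ⟨_, hU⟩
  by_contra hk
  exact h k (Nat.not_even_iff_odd.1 hk) (hU (Fin 10) (Fin 15) petersen bridgeless_petersen)

end Pool.Agent.Results.MP_48d738_co.UniversalIsEven
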